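import Pool.Agent.Lib_helper53.KP.HAlg

/-!
# KP block H: `ncond_of_std`
-/

open scoped Manifold ContDiff InnerProductSpace Quaternion Topology Matrix
open Metric Set

noncomputable section

namespace Pool.Agent.KP.H53

variable {d : ℕ}

/-- Riesz map for `ip`, as a linear map -/
def Jlin : T d →ₗ[ℝ] (T d →L[ℝ] ℝ) where
  toFun ξ := (innerSL ℝ ξ.1).coprod (innerSL ℝ ξ.2)
  map_add' := by
    intro x y
    ext z <;> simp
  map_smul' := by
    intro r x
    ext z <;> simp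

lemma Jlin_apply (ξ η : T d) : Jlin ξ η = ip ξ η := by
  simp [Jlin, ip]

lemma Jlin_bij : Function.Bijective (Jlin : T d →ₗ[ℝ] (T d →L[ℝ] ℝ)) := by
  constructor
  · intro ξ η h
    apply ip_ext
    intro c
    rw [← Jlin_apply, ← Jlin_apply, h]
  · intro f
    refine ⟨((InnerProductSpace.toDual ℝ (E d)).symm (f.comp (ContinuousLinearMap.inl ℝ _ _)),
      (InnerProductSpace.toDual ℝ (E d)).symm (f.comp (ContinuousLinearMap.inr ℝ _ _))), ?_⟩
    ext z
    · simp [Jlin_apply, ip, InnerProductSpace.toDual_symm_apply]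
    · simp [Jlin_apply, ip, InnerProductSpace.toDual_symm_apply]

/-- Riesz equivalence for `ip` -/
def J : T d ≃L[ℝ] (T d →L[ℝ] ℝ) := (LinearEquiv.ofBijective Jlin Jlin_bij).toContinuousLinearEquiv

lemma J_apply (ξ η : T d) : J ξ η = ip ξ η := Jlin_apply ξ η

/-- the functional `(a, b, q) ↦ a + b` -/
def e0 : N d →L[ℝ] ℝ :=
  ContinuousLinearMap.fst ℝ ℝ (ℝ × E d) + (ContinuousLinearMap.fst ℝ ℝ (E d)).comp
    (ContinuousLinearMap.snd ℝ ℝ (ℝ × E d))

lemma e0_Q0 (p : NProd d) (ξ η : T d) : e0 (Q0 p ξ η) = ip ξ η := by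
  rw [Q0_apply]; simp [e0, ip]

/-- composition of a bilinear map with a functional -/
def cf (ν : N d →L[ℝ] ℝ) : (T d →L[ℝ] T d →L[ℝ] N d) →L[ℝ] (T d →L[ℝ] T d →L[ℝ] ℝ) :=
  ContinuousLinearMap.compL ℝ (T d) (T d →L[ℝ] N d) (T d →L[ℝ] ℝ)
    (ContinuousLinearMap.compL ℝ (T d) (N d) ℝ ν)

lemma cf_apply (ν : N d →L[ℝ] ℝ) (Q : T d →L[ℝ] T d →L[ℝ] N d) (ξ η : T d) :
    cf ν Q ξ η = ν (Q ξ η) := rfl

lemma cf_e0_Q0 (p : NProd d) : cf e0 (Q0 p) =
    ((J : T d ≃L[ℝ] (T d →L[ℝ] ℝ)) : T d →L[ℝ] (T d →L[ℝ] ℝ)) := by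
  apply ContinuousLinearMap.ext
  intro ξ
  apply ContinuousLinearMap.ext
  intro η
  rw [cf_apply, e0_Q0]
  exact (J_apply ξ η).symm

/-- ip with a fixed second argument, continuous linear -/
def ipr (η : T d) : T d →L[ℝ] ℝ := J η

lemma ipr_apply (η ξ : T d) : ipr η ξ = ip ξ η := by
  rw [ip_comm]; exact J_apply η ξ

lemma ncond_curve (hd : 1 ≤ d) (p : NProd d) (Q : ℝ → (T d →L[ℝ] T d →L[ℝ] N d))
    (hQ : ∀ᶠ t in 𝓝 0, Std (Q t)) (h0 : Q 0 = Q0 p) (Q' : T d →L[ℝ] T d →L[ℝ] N d)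
    (hdiff : HasDerivAt Q Q' 0) (ν : N d →L[ℝ] ℝ) :
    ∃ l : ℝ, ∀ η η' : T d, (∀ ξ, ν (Q0 p η ξ) = 0) → (∀ ξ, ν (Q0 p η' ξ) = 0) →
      ν (Q' η η') = l * ip η η' := by
  classical
  -- kernel trivial
  by_cases hker : ∃ η0 : T d, η0 ≠ 0 ∧ ∀ ξ, ν (Q0 p η0 ξ) = 0
  swap
  · push Not at hker
    refine ⟨0, fun η η' h1 _ => ?_⟩
    have : η = 0 := by
      by_contra hne
      obtain ⟨ξ, hξ⟩ := hker η hne
      exact hξ (h1 ξ)
    subst this
    simp
  obtain ⟨η0, hη0, hη0k⟩ := hker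
  have hkM : ∀ η, (∀ ξ, ν (Q0 p η ξ) = 0) → Mop p ν η = 0 := by
    intro η h
    apply ip_ext
    intro c
    rw [ip_Mop, h, ip_zero_left]
  -- M = 0
  by_cases hM0 : ∀ ξ, Mop p ν ξ = 0
  · refine ⟨0, fun η η' _ _ => ?_⟩
    obtain ⟨u, hu⟩ := exists_ne_zero hd
    have h2 := congrArg Prod.fst (hM0 (u, 0))
    have h3 := congrArg Prod.snd (hM0 (0, u))
    have h4 := congrArg Prod.snd (hM0 (u, 0))
    have hz1 : (op p).adj (fs ν) 0 = 0 := by
      have := adj_smul_right (op p) (fs ν) 0 0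
      simpa using this
    have hz2 : p.adj (fs ν) 0 = 0 := by
      have := adj_smul_right p (fs ν) 0 0
      simpa using this
    simp only [Mop, hz1, smul_zero, add_zero, Prod.fst_zero] at h2
    simp only [Mop, hz2, smul_zero, add_zero, Prod.snd_zero] at h3
    simp only [Mop, smul_zero, zero_add, Prod.snd_zero] at h4
    have ha : fa ν = 0 := (smul_eq_zero.mp h2).resolve_right hu
    have hb : fb ν = 0 := (smul_eq_zero.mp h3).resolve_right hu
    have hs' : p.adj (fs ν) u = 0 := (smul_eq_zero.mp h4).resolve_left (by norm_num)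
    have hs : fs ν = 0 := by
      have := norm_sq_adj p (fs ν) u
      rw [hs'] at this
      simp only [norm_zero] at this
      have hu' : ‖u‖ ^ 2 ≠ 0 := by simpa using hu
      have h5 : ‖fs ν‖ ^ 2 = 0 := by
        rcases mul_eq_zero.mp (by linarith : ‖fs ν‖ ^ 2 * ‖u‖ ^ 2 = 0) with h | h
        · exact h
        · exact absurd h hu'
      simpa using h5
    rw [f_apply, ha, hb, hs]; simp
  push Not at hM0
  obtain ⟨ξ0, hξ0⟩ := hM0
  have hdel : fdel ν = 0 := by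
    have h := Mop_sq p ν η0
    rw [hkM η0 hη0k] at h
    have hz : Mop p ν 0 = 0 := by
      have := Mop_map_smul p ν 0 0
      simpa using this
    rw [hz, smul_zero, zero_sub] at h
    have h2 : fdel ν • η0 = 0 := by rw [← neg_eq_zero, ← h]
    exact (smul_eq_zero.mp h2).resolve_right hη0
  set τ₀ := ftau ν with hτ₀
  have hsq : ∀ ξ, Mop p ν (Mop p ν ξ) = τ₀ • Mop p ν ξ := by
    intro ξ
    rw [Mop_sq, hdel, zero_smul, sub_zero, hτ₀]
  have hτ0 : τ₀ ≠ 0 := by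
    intro h
    apply hξ0
    apply ip_self_eq_zero
    rw [← Mop_selfadj, hsq, h, zero_smul, ip_zero_left]
  set w := Mop p ν ξ0 with hw
  have hMw : Mop p ν w = τ₀ • w := hsq ξ0
  -- the operators
  set G : ℝ → (T d →L[ℝ] T d →L[ℝ] ℝ) := fun t => cf e0 (Q t) with hG
  set Nn : ℝ → (T d →L[ℝ] T d →L[ℝ] ℝ) := fun t => cf ν (Q t) with hNn
  have hG0 : G 0 = ((J : T d ≃L[ℝ] (T d →L[ℝ] ℝ)) : T d →L[ℝ] (T d →L[ℝ] ℝ)) := by
    simp only [hG, h0]; exact cf_e0_Q0 p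
  have hcf : ∀ μ : N d →L[ℝ] ℝ, HasFDerivAt (cf μ) (cf μ) (Q 0) := by
    intro μ
    apply ContinuousLinearMap.hasFDerivAt
  have hGd : HasDerivAt G (cf e0 Q') 0 :=
    HasFDerivAt.comp_hasDerivAt (F := T d →L[ℝ] T d →L[ℝ] N d) (E := T d →L[ℝ] T d →L[ℝ] ℝ)
      (f := Q) (0 : ℝ) (hcf e0) hdiff
  have hNd : HasDerivAt Nn (cf ν Q') 0 :=
    HasFDerivAt.comp_hasDerivAt (F := T d →L[ℝ] T d →L[ℝ] N d) (E := T d →L[ℝ] T d →L[ℝ] ℝ)
      (f := Q) (0 : ℝ) (hcf ν) hdiff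
  set S : ℝ → (T d →L[ℝ] T d) := fun t => (ContinuousLinearMap.inverse (G t)).comp (Nn t) with hS
  have hinvd : DifferentiableAt ℝ (fun t => ContinuousLinearMap.inverse (G t)) 0 := by
    have h1 : DifferentiableAt ℝ
        (ContinuousLinearMap.inverse : (T d →L[ℝ] (T d →L[ℝ] ℝ)) → ((T d →L[ℝ] ℝ) →L[ℝ] T d))
        (G 0) := by
      rw [hG0]
      exact (contDiffAt_map_inverse (n := 1) J).differentiableAt (by norm_num)
    have h2 : DifferentiableAt ℝ G 0 := by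
      exact HasDerivAt.differentiableAt (𝕜 := ℝ) (F := T d →L[ℝ] T d →L[ℝ] ℝ) hGd
    exact DifferentiableAt.comp (𝕜 := ℝ) (E := ℝ) (F := T d →L[ℝ] (T d →L[ℝ] ℝ))
      (G := (T d →L[ℝ] ℝ) →L[ℝ] T d) (0 : ℝ) h1 h2
  have hSd : DifferentiableAt ℝ S 0 := hinvd.clm_comp hNd.differentiableAt
  obtain ⟨S', hS'⟩ : ∃ S', HasDerivAt S S' 0 := ⟨_, hSd.hasDerivAt⟩
  -- near zero
  have hinv : ∀ᶠ t in 𝓝 (0 : ℝ), G t ∈ Set.range ((↑) : (T d ≃L[ℝ] (T d →L[ℝ] ℝ)) →
      (T d →L[ℝ] (T d →L[ℝ] ℝ))) := by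
    have hGc : ContinuousAt G 0 := by
      exact HasDerivAt.continuousAt (𝕜 := ℝ) (F := T d →L[ℝ] T d →L[ℝ] ℝ) hGd
    have h2 : Set.range ((↑) : (T d ≃L[ℝ] (T d →L[ℝ] ℝ)) →
      (T d →L[ℝ] (T d →L[ℝ] ℝ))) ∈ 𝓝 (G 0) := by
      rw [hG0]; exact ContinuousLinearEquiv.nhds (J : T d ≃L[ℝ] (T d →L[ℝ] ℝ))
    exact hGc.preimage_mem_nhds h2
  have hGS : ∀ᶠ t in 𝓝 (0 : ℝ), ∀ ξ, G t (S t ξ) = Nn t ξ := by
    filter_upwards [hinv] with t ht
    obtain ⟨et, het⟩ := ht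
    intro ξ
    simp only [hS, ← het, ContinuousLinearMap.inverse_equiv]
    simp
  have hquad : ∀ᶠ t in 𝓝 (0 : ℝ), ∃ τ δ : ℝ, ∀ ξ, S t (S t ξ) = τ • S t ξ - δ • ξ := by
    filter_upwards [hinv, hGS, hQ] with t ht hgs hst
    obtain ⟨et, het⟩ := ht
    apply quad_std hd (Q t) hst e0 ν (S t)
    · intro ξ h
      apply et.injective
      rw [map_zero]
      apply ContinuousLinearMap.ext
      intro η
      have : (et : T d →L[ℝ] (T d →L[ℝ] ℝ)) ξ η = 0 := by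
        rw [het]; exact h η
      simpa using this
    · intro ξ η
      have := congrArg (fun f => f η) (hgs ξ)
      exact this
  -- S 0 = M
  have hS0 : ∀ ξ, S 0 ξ = Mop p ν ξ := by
    intro ξ
    apply ip_ext
    intro c
    have h1 := congrArg (fun f => f c) (hGS.self_of_nhds ξ)
    simp only [hG0, hNn, h0, cf_apply] at h1
    rw [ip_Mop, ← h1]
    exact (J_apply _ _).symm
  -- elimination
  set A := ip w w with hA
  set B := ip η0 η0 with hB
  have hApos : 0 < A := ip_self_pos w hξ0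
  have hBpos : 0 < B := ip_self_pos η0 hη0
  have dS : ∀ ξ, HasDerivAt (fun t => S t ξ) (S' ξ) 0 := by
    intro ξ
    have := hS'.clm_apply (hasDerivAt_const (0 : ℝ) ξ)
    simpa using this
  have dSS : ∀ ξ, HasDerivAt (fun t => S t (S t ξ)) (S' (S 0 ξ) + S 0 (S' ξ)) 0 := by
    intro ξ
    exact hS'.clm_apply (dS ξ)
  let a : ℝ → ℝ := fun t => ip (S t w) w
  let b : ℝ → ℝ := fun t => ip (S t (S t w)) w
  let c : ℝ → ℝ := fun t => ip (S t η0) η0
  let dd : ℝ → ℝ := fun t => ip (S t (S t η0)) η0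
  have dip : ∀ (f : ℝ → T d) (f' η : T d), HasDerivAt f f' 0 →
      DifferentiableAt ℝ (fun t => ip (f t) η) 0 := by
    intro f f' η hf
    have h1 := (ipr η).hasFDerivAt.comp_hasDerivAt (0 : ℝ) hf
    have h2 : (fun t => ip (f t) η) = (ipr η) ∘ f := by
      funext t; simp [ipr_apply]
    rw [h2]
    exact h1.differentiableAt
  have da : DifferentiableAt ℝ a 0 := dip _ _ w (dS w)
  have db : DifferentiableAt ℝ b 0 := dip _ _ w (dSS w)
  have dc : DifferentiableAt ℝ c 0 := dip _ _ η0 (dS η0)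
  have ddd : DifferentiableAt ℝ dd 0 := dip _ _ η0 (dSS η0)
  have a0 : a 0 = τ₀ * A := by
    simp only [a]; rw [hS0, hMw, ip_smul_left]
  have c0 : c 0 = 0 := by
    simp only [c]; rw [hS0, hkM η0 hη0k, ip_zero_left]
  have hden : a 0 * B - c 0 * A ≠ 0 := by
    rw [a0, c0]; simp only [zero_mul, sub_zero]
    exact mul_ne_zero (mul_ne_zero hτ0 hApos.ne') hBpos.ne'
  let τ : ℝ → ℝ := fun t => (b t * B - dd t * A) / (a t * B - c t * A)
  let δ : ℝ → ℝ := fun t => (τ t * c t - dd t) / B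
  have dτ : DifferentiableAt ℝ τ 0 :=
    ((db.mul_const B).sub (ddd.mul_const A)).div ((da.mul_const B).sub (dc.mul_const A)) hden
  have dδ : DifferentiableAt ℝ δ 0 := ((dτ.mul dc).sub ddd).div_const B
  have hdenev : ∀ᶠ t in 𝓝 (0 : ℝ), a t * B - c t * A ≠ 0 :=
    ((da.mul_const B).sub (dc.mul_const A)).continuousAt.eventually_ne hden
  have hrel : ∀ᶠ t in 𝓝 (0 : ℝ), ∀ ξ, S t (S t ξ) = τ t • S t ξ - δ t • ξ := by
    filter_upwards [hquad, hdenev] with t ht hden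
    obtain ⟨τ1, δ1, h⟩ := ht
    have h1 : b t = τ1 * a t - δ1 * A := by
      simp only [a, b]; rw [h w, ip_sub_left, ip_smul_left, ip_smul_left]
    have h2 : dd t = τ1 * c t - δ1 * B := by
      simp only [c, dd]; rw [h η0, ip_sub_left, ip_smul_left, ip_smul_left]
    have h3 : τ t = τ1 := by
      simp only [τ]
      rw [div_eq_iff hden, h1, h2]; ring
    have h4 : δ t = δ1 := by
      simp only [δ]
      rw [h3, h2, div_eq_iff hBpos.ne']; ring
    intro ξ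
    rw [h3, h4, h]
  have τ0' : τ 0 = τ₀ := by
    have h1 : b 0 = τ₀ * (τ₀ * A) := by
      simp only [b]; rw [hS0, hS0, hMw, Mop_map_smul, hMw, ip_smul_left, ip_smul_left]
    have h2 : dd 0 = 0 := by
      simp only [dd]; rw [hS0, hS0, hsq, hkM η0 hη0k, smul_zero, ip_zero_left]
    simp only [τ]
    rw [h1, h2, a0, c0]
    field_simp
    ring
  refine ⟨deriv δ 0 / τ₀, ?_⟩
  intro η η' hη hη'
  -- derivative of the relation
  have hd1 : S' (S 0 η) + S 0 (S' η) = deriv τ 0 • S 0 η + τ 0 • S' η - deriv δ 0 • η := by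
    have h1 := dSS η
    have h2 : HasDerivAt (fun t => τ t • S t η - δ t • η)
        (τ 0 • S' η + deriv τ 0 • S 0 η - deriv δ 0 • η) 0 :=
      (dτ.hasDerivAt.smul (dS η)).sub (dδ.hasDerivAt.smul_const η)
    have h3 : (fun t => S t (S t η)) =ᶠ[𝓝 0] fun t => τ t • S t η - δ t • η := by
      filter_upwards [hrel] with t ht
      exact ht η
    have h4 := h1.unique (h2.congr_of_eventuallyEq h3)
    rw [h4]; abel
  have hS0η : S 0 η = 0 := by rw [hS0, hkM η hη]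
  rw [hS0η, map_zero, zero_add, smul_zero, zero_add, τ0'] at hd1
  have h5 : ip (S 0 (S' η)) η' = 0 := by
    rw [hS0, Mop_selfadj, hkM η' hη', ip_comm, ip_zero_left]
  rw [hd1, ip_sub_left, ip_smul_left, ip_smul_left] at h5
  -- derivative of G S = N
  have hd2 : ip (S' η) η' = ν (Q' η η') := by
    have h1 : HasDerivAt (fun t => G t (S t η)) (cf e0 Q' (S 0 η) + G 0 (S' η)) 0 :=
      hGd.clm_apply (dS η)
    have h2 : HasDerivAt (fun t => Nn t η) (cf ν Q' η) 0 := by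
      have := hNd.clm_apply (hasDerivAt_const (0 : ℝ) η)
      simpa using this
    have h3 : (fun t => G t (S t η)) =ᶠ[𝓝 0] fun t => Nn t η := by
      filter_upwards [hGS] with t ht
      exact ht η
    have h4 := h1.unique (h2.congr_of_eventuallyEq h3)
    rw [hS0η, map_zero, zero_add, hG0] at h4
    have h6 := congrArg (fun f => f η') h4
    simp only [cf_apply] at h6
    rw [← h6]
    exact (J_apply _ _).symm
  rw [← hd2]
  field_simp
  linarith

end Pool.Agent.KP.H53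

namespace Pool.Agent.KP

variable {d : ℕ}

theorem ncond_of_std (hd : 1 ≤ d) (p : NProd d) (Q : T d → (T d →L[ℝ] T d →L[ℝ] N d))
    (hQ : ∀ᶠ x in 𝓝 0, Std (Q x)) (h0 : Q 0 = Q0 p) (hdiff : DifferentiableAt ℝ Q 0) :
    NCond p (fderiv ℝ Q 0) := by
  intro ν
  have key : ∀ z : T d, ∃ l : ℝ, ∀ η η' : T d, (∀ ξ, ν (Q0 p η ξ) = 0) →
      (∀ ξ, ν (Q0 p η' ξ) = 0) → ν (fderiv ℝ Q 0 z η η') = l * H53.ip η η' := by
    intro z
    have hcurve : HasDerivAt (fun t : ℝ => t • z) z 0 := by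
      have := (hasDerivAt_id (0 : ℝ)).smul_const z
      simpa using this
    apply H53.ncond_curve hd p (fun t : ℝ => Q (t • z)) _ (by simpa using h0)
      (fderiv ℝ Q 0 z) _ ν
    · have h1 : Filter.Tendsto (fun t : ℝ => t • z) (𝓝 0) (𝓝 0) := by
        have := hcurve.continuousAt.tendsto
        simpa using this
      exact h1.eventually hQ
    · have h1 : HasFDerivAt Q (fderiv ℝ Q 0) ((0 : ℝ) • z) := by
        rw [zero_smul]; exact hdiff.hasFDerivAt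
      exact HasFDerivAt.comp_hasDerivAt (E := T d →L[ℝ] T d →L[ℝ] N d) (F := T d)
        (f := fun t : ℝ => t • z) (0 : ℝ) h1 hcurve
  choose l hl using key
  exact ⟨l, fun z η η' h h' => hl z η η' h h'⟩

end Pool.Agent.KP
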