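import Pool.Agent.Lib_helper53.KP.H
import Pool.Agent.Lib_helper51.KP.G
import Pool.Agent.Lib_helper69.KP.F

/-!
# KP block H': transport to arbitrary `Std` forms
-/

open scoped Manifold ContDiff InnerProductSpace Quaternion Topology Matrix
open Metric Set

noncomputable section

namespace Pool.Agent.KP

variable {d : ℕ}

theorem tri_unique_std (hd : 1 ≤ d) (Q : T d →L[ℝ] T d →L[ℝ] N d) (hQ : Std Q)
    (c : N d →L[ℝ] T d) (h : ∀ x, Q x (c (Q x x)) = 0) : c = 0 := by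
  obtain ⟨p, A, B, hAB⟩ := hQ
  have h1 := tri_unique_Q0 hd p
    ((B : T d →L[ℝ] T d).comp (c.comp (A : N d →L[ℝ] N d))) (by
      intro x
      have h2 := h (B.symm x)
      rw [hAB, hAB] at h2
      apply A.injective
      rw [map_zero]
      simpa using h2)
  apply ContinuousLinearMap.ext
  intro X
  have h2 := congrArg (fun f : N d →L[ℝ] T d => f (A.symm X)) h1
  simp only [ContinuousLinearMap.comp_apply, ContinuousLinearEquiv.coe_coe,
    ContinuousLinearEquiv.apply_symm_apply, zero_apply] at h2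
  rw [zero_apply]
  apply B.injective
  rw [h2, map_zero]

/-- transport of `e` by `A`, `B` -/
def trE (A : N d ≃L[ℝ] N d) (B : T d ≃L[ℝ] T d) (e : T d →L[ℝ] N d →L[ℝ] T d) :
    T d →L[ℝ] N d →L[ℝ] T d :=
  LinearMap.toContinuousBilinearMap
    (LinearMap.mk₂ ℝ (fun (η : T d) (X : N d) => B (e (B.symm η) (A X)))
      (by intro a b c; simp) (by intro r a b; simp) (by intro a b c; simp) (by intro r a b; simp))

theorem trE_apply (A : N d ≃L[ℝ] N d) (B : T d ≃L[ℝ] T d) (e : T d →L[ℝ] N d →L[ℝ] T d)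
    (η : T d) (X : N d) : trE A B e η X = B (e (B.symm η) (A X)) := rfl

theorem sym4_trE (p : NProd d) (Q : T d →L[ℝ] T d →L[ℝ] N d) (A : N d ≃L[ℝ] N d)
    (B : T d ≃L[ℝ] T d) (hAB : ∀ ξ η, Q ξ η = A (Q0 p (B ξ) (B η)))
    (e : T d →L[ℝ] N d →L[ℝ] T d) (he : Sym4 Q e) : Sym4 (Q0 p) (trE A B e) := by
  intro θ ξ η ζ
  have h := he (B.symm θ) (B.symm ξ) (B.symm η) (B.symm ζ)
  apply A.injective
  simp only [hAB, ContinuousLinearEquiv.apply_symm_apply] at h
  simp only [trE_apply, map_add]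
  exact h

theorem sym4_prolong_std (hd : 2 ≤ d) (Q : T d →L[ℝ] T d →L[ℝ] N d) (hQ : Std Q)
    (e : T d →L[ℝ] T d →L[ℝ] N d →L[ℝ] T d)
    (he : ∀ ζ, Sym4 Q (e ζ)) (hs : ∀ ζ η X, e ζ η X = e η ζ X) : e = 0 := by
  obtain ⟨p, A, B, hAB⟩ := hQ
  let e' : T d →L[ℝ] T d →L[ℝ] N d →L[ℝ] T d :=
    LinearMap.toContinuousLinearMap
      { toFun := fun ζ => trE A B (e (B.symm ζ))
        map_add' := by
          intro a b
          ext η X <;> simp [trE_apply]
        map_smul' := by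
          intro r a
          ext η X <;> simp [trE_apply] }
  have he' : ∀ ζ η X, e' ζ η X = B (e (B.symm ζ) (B.symm η) (A X)) := fun ζ η X => rfl
  have h1 : e' = 0 := by
    apply sym4_prolong hd p e'
    · intro ζ
      exact sym4_trE p Q A B hAB _ (he _)
    · intro ζ η X
      rw [he', he', hs]
  apply ContinuousLinearMap.ext; intro ζ
  apply ContinuousLinearMap.ext; intro η
  apply ContinuousLinearMap.ext; intro X
  have h2 := he' (B ζ) (B η) (A.symm X)
  rw [h1] at h2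
  simp only [ContinuousLinearEquiv.symm_apply_apply, ContinuousLinearEquiv.apply_symm_apply,
    zero_apply] at h2
  simp only [zero_apply]
  apply B.injective
  rw [← h2, map_zero]

/-- transport of a bilinear form -/
def trB (A : N d ≃L[ℝ] N d) (B : T d ≃L[ℝ] T d) (b : T d →L[ℝ] T d →L[ℝ] N d) :
    T d →L[ℝ] T d →L[ℝ] N d :=
  LinearMap.toContinuousBilinearMap
    (LinearMap.mk₂ ℝ (fun (ξ η : T d) => A.symm (b (B.symm ξ) (B.symm η)))
      (by intro a b c; simp) (by intro r a b; simp)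
      (by intro a b c; simp) (by intro r a b; simp))

theorem trB_apply (A : N d ≃L[ℝ] N d) (B : T d ≃L[ℝ] T d) (b : T d →L[ℝ] T d →L[ℝ] N d)
    (ξ η : T d) : trB A B b ξ η = A.symm (b (B.symm ξ) (B.symm η)) := rfl

/-- `trB` as a continuous linear map -/
def trΦ (A : N d ≃L[ℝ] N d) (B : T d ≃L[ℝ] T d) :
    (T d →L[ℝ] T d →L[ℝ] N d) →L[ℝ] (T d →L[ℝ] T d →L[ℝ] N d) :=
  LinearMap.toContinuousLinearMap
    { toFun := fun b => trB A B b
      map_add' := by
        intro a b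
        apply ContinuousLinearMap.ext; intro ξ
        apply ContinuousLinearMap.ext; intro η
        exact map_add A.symm _ _
      map_smul' := by
        intro r a
        apply ContinuousLinearMap.ext; intro ξ
        apply ContinuousLinearMap.ext; intro η
        exact map_smul A.symm _ _ }

theorem comp_aux (Q : T d → (T d →L[ℝ] T d →L[ℝ] N d))
    (Φ : (T d →L[ℝ] T d →L[ℝ] N d) →L[ℝ] (T d →L[ℝ] T d →L[ℝ] N d)) (x0 : T d)
    (L : T d →L[ℝ] T d →L[ℝ] T d →L[ℝ] N d) (B : T d ≃L[ℝ] T d)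
    (h1 : HasFDerivAt (fun y : T d => Q (x0 + B.symm y)) (L.comp (B.symm : T d →L[ℝ] T d)) 0) :
    HasFDerivAt (fun y => Φ (Q (x0 + B.symm y))) (Φ.comp (L.comp (B.symm : T d →L[ℝ] T d))) 0 := by
  have hΦd : HasFDerivAt Φ Φ (Q (x0 + B.symm 0)) := by
    apply ContinuousLinearMap.hasFDerivAt
  exact @HasFDerivAt.comp ℝ _ (T d) _ _ (T d →L[ℝ] T d →L[ℝ] N d) _ _
    (T d →L[ℝ] T d →L[ℝ] N d) _ _ (fun y : T d => Q (x0 + B.symm y))
    (L.comp (B.symm : T d →L[ℝ] T d)) (0 : T d) Φ Φ hΦd h1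

theorem tri_exists_std (hd : 2 ≤ d) (Q : T d → (T d →L[ℝ] T d →L[ℝ] N d)) (x0 : T d)
    (hQ : ∀ᶠ x in 𝓝 x0, Std (Q x)) (hdiff : DifferentiableAt ℝ Q x0)
    (h12 : ∀ x y z, fderiv ℝ Q x0 x y z = fderiv ℝ Q x0 y x z)
    (h23 : ∀ x y z, fderiv ℝ Q x0 x y z = fderiv ℝ Q x0 x z y) :
    ∃ c : N d →L[ℝ] T d, ∀ x y z, fderiv ℝ Q x0 x y z = Tri (Q x0) c x y z := by
  obtain ⟨p, A, B, hAB⟩ := hQ.self_of_nhds
  -- transport map on bilinear forms
  let Φ : (T d →L[ℝ] T d →L[ℝ] N d) →L[ℝ] (T d →L[ℝ] T d →L[ℝ] N d) := trΦ A B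
  have hΦ : ∀ b ξ η, Φ b ξ η = A.symm (b (B.symm ξ) (B.symm η)) := fun b ξ η => rfl
  let Q1 : T d → (T d →L[ℝ] T d →L[ℝ] N d) := fun y => Φ (Q (x0 + B.symm y))
  have hx : HasFDerivAt (fun y : T d => x0 + B.symm y) (B.symm : T d →L[ℝ] T d) 0 := by
    have h1 : HasFDerivAt (fun y : T d => B.symm y) (B.symm : T d →L[ℝ] T d) 0 :=
      (B.symm : T d →L[ℝ] T d).hasFDerivAt
    exact h1.const_add x0
  have hx0 : x0 + B.symm 0 = x0 := by simp
  have hQd : HasFDerivAt Q (fderiv ℝ Q x0) ((fun y : T d => x0 + B.symm y) 0) := by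
    simp only [hx0]; exact hdiff.hasFDerivAt
  have h1 : HasFDerivAt (fun y : T d => Q (x0 + B.symm y))
      ((fderiv ℝ Q x0).comp (B.symm : T d →L[ℝ] T d)) 0 :=
    HasFDerivAt.comp (F := T d) (G := T d →L[ℝ] T d →L[ℝ] N d) (0 : T d) hQd hx
  have h2 : HasFDerivAt Q1 (Φ.comp ((fderiv ℝ Q x0).comp (B.symm : T d →L[ℝ] T d))) 0 :=
    comp_aux Q Φ x0 (fderiv ℝ Q x0) B h1
  have hfd : ∀ x y z, fderiv ℝ Q1 0 x y z
      = A.symm (fderiv ℝ Q x0 (B.symm x) (B.symm y) (B.symm z)) := by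
    intro x y z
    have h3 : fderiv ℝ Q1 0 = Φ.comp ((fderiv ℝ Q x0).comp (B.symm : T d →L[ℝ] T d)) :=
      HasFDerivAt.fderiv h2
    rw [h3]; rfl
  have hQ10 : Q1 0 = Q0 p := by
    apply ContinuousLinearMap.ext; intro ξ
    apply ContinuousLinearMap.ext; intro η
    simp only [Q1, hx0, hΦ, hAB, ContinuousLinearEquiv.apply_symm_apply,
      ContinuousLinearEquiv.symm_apply_apply]
  have hstd1 : ∀ᶠ y in 𝓝 (0 : T d), Std (Q1 y) := by
    have ht : Filter.Tendsto (fun y : T d => x0 + B.symm y) (𝓝 0) (𝓝 x0) := by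
      have := hx.continuousAt.tendsto
      simpa using this
    filter_upwards [ht.eventually hQ] with y hy
    obtain ⟨p', A', B', h'⟩ := hy
    refine ⟨p', A'.trans A.symm, B.symm.trans B', ?_⟩
    intro ξ η
    simp only [Q1, hΦ, h', ContinuousLinearEquiv.trans_apply]
  have hN : NCond p (fderiv ℝ Q1 0) := by
    apply ncond_of_std (by omega) p Q1 hstd1 hQ10
    exact HasFDerivAt.differentiableAt h2
  obtain ⟨c', hc'⟩ := tri_exists_Q0 hd p (fderiv ℝ Q1 0)
    (by intro x y z; rw [hfd, hfd, h12]) (by intro x y z; rw [hfd, hfd, h23]) hN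
  refine ⟨(B.symm : T d →L[ℝ] T d).comp (c'.comp (A.symm : N d →L[ℝ] N d)), ?_⟩
  intro x y z
  have h3 := hc' (B x) (B y) (B z)
  rw [hfd] at h3
  simp only [ContinuousLinearEquiv.symm_apply_apply] at h3
  have h4 := congrArg A h3
  rw [ContinuousLinearEquiv.apply_symm_apply] at h4
  rw [h4]
  unfold Tri
  simp only [hAB, ContinuousLinearMap.comp_apply, ContinuousLinearEquiv.coe_coe,
    ContinuousLinearEquiv.apply_symm_apply, ContinuousLinearEquiv.symm_apply_apply, map_add]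

end Pool.Agent.KP
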