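import Pool.Agent.Lib_helper69.KP.Defs2

/-!
# KP block H, algebra: the operators `M_ν` and the quadratic relation for `Std` forms
-/

open scoped Manifold ContDiff InnerProductSpace Quaternion Topology Matrix
open Metric Set

noncomputable section

namespace Pool.Agent.KP.H53

variable {d : ℕ}

/-- the opposite product -/
def op (p : NProd d) : NProd d where
  mul := p.mul.flip
  norm_mul := by intro v u; rw [ContinuousLinearMap.flip_apply, p.norm_mul, mul_comm]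

@[simp] lemma op_mul (p : NProd d) (v u : E d) : (op p).mul v u = p.mul u v := rfl

lemma inner_mul_mul (p : NProd d) (v u u' : E d) :
    ⟪p.mul v u, p.mul v u'⟫_ℝ = ‖v‖ ^ 2 * ⟪u, u'⟫_ℝ := by
  have h := real_inner_eq_norm_add_mul_self_sub_norm_mul_self_sub_norm_mul_self_div_two
    (p.mul v u) (p.mul v u')
  rw [← map_add, p.norm_mul, p.norm_mul, p.norm_mul] at h
  rw [h, real_inner_eq_norm_add_mul_self_sub_norm_mul_self_sub_norm_mul_self_div_two u u']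
  ring

lemma inner_adj' (p : NProd d) (s u v : E d) :
    ⟪p.adj s u, v⟫_ℝ = ⟪s, p.mul v u⟫_ℝ := p.inner_adj s u v

lemma adj_mul (p : NProd d) (v u : E d) : p.adj (p.mul v u) u = ‖u‖ ^ 2 • v := by
  apply ext_inner_right ℝ
  intro w
  rw [p.inner_adj, inner_smul_left]
  have := inner_mul_mul (op p) u v w
  simpa using this

lemma mul_surj (p : NProd d) (u : E d) (hu : u ≠ 0) (s : E d) : ∃ v, p.mul v u = s := by
  have hinj : Function.Injective ((p.mul.flip u : E d →L[ℝ] E d) : E d →ₗ[ℝ] E d) := by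
    rw [injective_iff_map_eq_zero]
    intro v hv
    have h1 : p.mul v u = 0 := hv
    have h2 := p.norm_mul v u
    rw [h1, norm_zero] at h2
    rcases mul_eq_zero.mp h2.symm with h | h
    · exact norm_eq_zero.mp h
    · exact absurd (norm_eq_zero.mp h) hu
  have hsurj := LinearMap.surjective_of_injective hinj
  obtain ⟨v, hv⟩ := hsurj s
  exact ⟨v, hv⟩

lemma mul_adj (p : NProd d) (s u : E d) : p.mul (p.adj s u) u = ‖u‖ ^ 2 • s := by
  by_cases hu : u = 0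
  · subst hu; simp
  · obtain ⟨v, rfl⟩ := mul_surj p u hu s
    rw [adj_mul]
    simp

lemma adj_add_right (p : NProd d) (s u u' : E d) : p.adj s (u + u') = p.adj s u + p.adj s u' := by
  apply ext_inner_right ℝ
  intro w
  rw [inner_add_left, p.inner_adj, p.inner_adj, p.inner_adj, map_add, inner_add_right]

lemma adj_smul_right (p : NProd d) (s u : E d) (r : ℝ) : p.adj s (r • u) = r • p.adj s u := by
  apply ext_inner_right ℝ
  intro w
  rw [p.inner_adj, inner_smul_left, p.inner_adj, map_smul, inner_smul_right]; simp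

lemma norm_sq_adj (p : NProd d) (s u : E d) : ‖p.adj s u‖ ^ 2 = ‖s‖ ^ 2 * ‖u‖ ^ 2 := by
  rw [← real_inner_self_eq_norm_sq, p.inner_adj, mul_adj, inner_smul_right,
    real_inner_self_eq_norm_sq]; ring

lemma inner_adj_adj (p : NProd d) (s u u' : E d) :
    ⟪p.adj s u, p.adj s u'⟫_ℝ = ‖s‖ ^ 2 * ⟪u, u'⟫_ℝ := by
  have h1 := norm_sq_adj p s (u + u')
  have h2 := norm_sq_adj p s u
  have h3 := norm_sq_adj p s u'
  rw [adj_add_right, norm_add_sq_real, norm_add_sq_real] at h1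
  nlinarith

lemma adj_op_adj (p : NProd d) (s u : E d) : (op p).adj s (p.adj s u) = ‖s‖ ^ 2 • u := by
  apply ext_inner_right ℝ
  intro w
  rw [(op p).inner_adj, op_mul, inner_smul_left]
  rw [← p.inner_adj, inner_adj_adj, real_inner_comm]; simp

lemma adj_adj_op (p : NProd d) (s v : E d) : p.adj s ((op p).adj s v) = ‖s‖ ^ 2 • v := by
  have := adj_op_adj (op p) s v
  exact this

/-! ### functionals on `N d` -/

/-- coordinates of a functional -/
def fa (ν : N d →L[ℝ] ℝ) : ℝ := ν (1, 0, 0)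
def fb (ν : N d →L[ℝ] ℝ) : ℝ := ν (0, 1, 0)
def fs (ν : N d →L[ℝ] ℝ) : E d :=
  (InnerProductSpace.toDual ℝ (E d)).symm
    (ν.comp ((ContinuousLinearMap.inr ℝ ℝ (ℝ × E d)).comp (ContinuousLinearMap.inr ℝ ℝ (E d))))

lemma f_apply (ν : N d →L[ℝ] ℝ) (X : N d) : ν X = fa ν * X.1 + fb ν * X.2.1 + ⟪fs ν, X.2.2⟫_ℝ := by
  have h1 : X = X.1 • ((1, 0, 0) : N d) + X.2.1 • ((0, 1, 0) : N d) + ((0, 0, X.2.2) : N d) := by
    ext <;> simp
  have h2 : ⟪fs ν, X.2.2⟫_ℝ = ν (0, 0, X.2.2) := by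
    unfold fs
    rw [InnerProductSpace.toDual_symm_apply]
    rfl
  conv_lhs => rw [h1]
  rw [map_add, map_add, map_smul, map_smul, h2]
  unfold fa fb
  simp [mul_comm]

/-- the standard inner product on `T d` -/
def ip (ξ η : T d) : ℝ := ⟪ξ.1, η.1⟫_ℝ + ⟪ξ.2, η.2⟫_ℝ

lemma ip_add_left (a b c : T d) : ip (a + b) c = ip a c + ip b c := by
  simp [ip, inner_add_left]; ring
lemma ip_smul_left (r : ℝ) (a c : T d) : ip (r • a) c = r * ip a c := by
  simp [ip, inner_smul_left]; ring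
lemma ip_sub_left (a b c : T d) : ip (a - b) c = ip a c - ip b c := by
  simp [ip, inner_sub_left]; ring
lemma ip_comm (a b : T d) : ip a b = ip b a := by
  simp [ip, real_inner_comm]
lemma ip_zero_left (a : T d) : ip 0 a = 0 := by simp [ip]

lemma ip_self_eq_zero (a : T d) (h : ip a a = 0) : a = 0 := by
  unfold ip at h
  rw [real_inner_self_eq_norm_sq, real_inner_self_eq_norm_sq] at h
  have h1 : ‖a.1‖ ^ 2 = 0 := by nlinarith [sq_nonneg ‖a.1‖, sq_nonneg ‖a.2‖]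
  have h2 : ‖a.2‖ ^ 2 = 0 := by nlinarith [sq_nonneg ‖a.1‖, sq_nonneg ‖a.2‖]
  ext1
  · simpa using h1
  · simpa using h2

lemma ip_self_pos (a : T d) (h : a ≠ 0) : 0 < ip a a := by
  have h0 : 0 ≤ ip a a := by
    unfold ip
    rw [real_inner_self_eq_norm_sq, real_inner_self_eq_norm_sq]; positivity
  rcases h0.lt_or_eq with h1 | h1
  · exact h1
  · exact absurd (ip_self_eq_zero a h1.symm) h

lemma ip_ext (a b : T d) (h : ∀ c, ip a c = ip b c) : a = b := by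
  have : a - b = 0 := by
    apply ip_self_eq_zero
    rw [ip_sub_left, h]; ring
  exact sub_eq_zero.mp this

/-- the operator `M_ν` with `ip (M_ν ξ) η = ν (Q0 ξ η)` -/
def Mop (p : NProd d) (ν : N d →L[ℝ] ℝ) (ξ : T d) : T d :=
  (fa ν • ξ.1 + (1/2 : ℝ) • (op p).adj (fs ν) ξ.2, fb ν • ξ.2 + (1/2 : ℝ) • p.adj (fs ν) ξ.1)

lemma ip_Mop (p : NProd d) (ν : N d →L[ℝ] ℝ) (ξ η : T d) :
    ip (Mop p ν ξ) η = ν (Q0 p ξ η) := by
  rw [f_apply, Q0_apply]
  unfold ip Mop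
  simp only
  rw [inner_add_left, inner_add_left, inner_smul_left, inner_smul_left, inner_smul_left,
    inner_smul_left, (op p).inner_adj, p.inner_adj, inner_smul_right, inner_add_right, op_mul]
  simp
  ring

lemma Q0_symm (p : NProd d) (ξ η : T d) : Q0 p ξ η = Q0 p η ξ := by
  rw [Q0_apply, Q0_apply, real_inner_comm, real_inner_comm ξ.2, add_comm (p.mul ξ.2 η.1)]

def ftau (ν : N d →L[ℝ] ℝ) : ℝ := fa ν + fb ν
def fdel (ν : N d →L[ℝ] ℝ) : ℝ := fa ν * fb ν - ‖fs ν‖ ^ 2 / 4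

lemma Mop_sq (p : NProd d) (ν : N d →L[ℝ] ℝ) (ξ : T d) :
    Mop p ν (Mop p ν ξ) = ftau ν • Mop p ν ξ - fdel ν • ξ := by
  unfold Mop ftau fdel
  ext1
  · simp only [adj_add_right, adj_smul_right, adj_op_adj, Prod.fst_sub, Prod.smul_fst]
    module
  · simp only [adj_add_right, adj_smul_right, adj_adj_op, Prod.snd_sub, Prod.smul_snd]
    module

lemma Mop_add (p : NProd d) (ν μ : N d →L[ℝ] ℝ) (ξ : T d) :
    Mop p (ν + μ) ξ = Mop p ν ξ + Mop p μ ξ := by
  apply ip_ext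
  intro c
  rw [ip_add_left, ip_Mop, ip_Mop, ip_Mop]; rfl

lemma Mop_map_add (p : NProd d) (ν : N d →L[ℝ] ℝ) (ξ η : T d) :
    Mop p ν (ξ + η) = Mop p ν ξ + Mop p ν η := by
  apply ip_ext
  intro c
  rw [ip_add_left, ip_Mop, ip_Mop, ip_Mop, map_add, add_apply, map_add]

lemma Mop_map_smul (p : NProd d) (ν : N d →L[ℝ] ℝ) (r : ℝ) (ξ : T d) :
    Mop p ν (r • ξ) = r • Mop p ν ξ := by
  apply ip_ext
  intro c
  rw [ip_smul_left, ip_Mop, ip_Mop, map_smul, smul_apply, map_smul]; rfl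

lemma Mop_map_sub (p : NProd d) (ν : N d →L[ℝ] ℝ) (ξ η : T d) :
    Mop p ν (ξ - η) = Mop p ν ξ - Mop p ν η := by
  apply ip_ext
  intro c
  rw [ip_sub_left, ip_Mop, ip_Mop, ip_Mop, map_sub, sub_apply, map_sub]

lemma Mop_selfadj (p : NProd d) (ν : N d →L[ℝ] ℝ) (ξ η : T d) :
    ip (Mop p ν ξ) η = ip ξ (Mop p ν η) := by
  rw [ip_comm ξ, ip_Mop, ip_Mop, Q0_symm]

/-- polarised relation -/
lemma Mop_polar (p : NProd d) (ν μ : N d →L[ℝ] ℝ) (ξ : T d) :
    Mop p ν (Mop p μ ξ) + Mop p μ (Mop p ν ξ) =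
      ftau ν • Mop p μ ξ + ftau μ • Mop p ν ξ - (fdel (ν + μ) - fdel ν - fdel μ) • ξ := by
  have h := Mop_sq p (ν + μ) ξ
  have h1 := Mop_sq p ν ξ
  have h2 := Mop_sq p μ ξ
  have ht : ftau (ν + μ) = ftau ν + ftau μ := by
    unfold ftau fa fb; simp; ring
  rw [Mop_add, Mop_add, Mop_map_add, Mop_map_add, ht, h1, h2] at h
  have h3 : Mop p ν (Mop p μ ξ) + Mop p μ (Mop p ν ξ)
      = (ftau ν • Mop p ν ξ - fdel ν • ξ + Mop p ν (Mop p μ ξ)
          + (Mop p μ (Mop p ν ξ) + (ftau μ • Mop p μ ξ - fdel μ • ξ)))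
        - (ftau ν • Mop p ν ξ - fdel ν • ξ) - (ftau μ • Mop p μ ξ - fdel μ • ξ) := by module
  rw [h3, h]
  module


/-! ### The quadratic relation -/

lemma exists_ne_zero (hd : 1 ≤ d) : ∃ u : E d, u ≠ 0 := by
  have : Nontrivial (E d) := by
    have : Nonempty (Fin d) := ⟨⟨0, by omega⟩⟩
    infer_instance
  exact exists_ne 0

lemma fdel_ne_zero (hd : 1 ≤ d) (p : NProd d) (e : N d →L[ℝ] ℝ)
    (he : ∀ ξ, Mop p e ξ = 0 → ξ = 0) : fdel e ≠ 0 := by
  intro h0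
  obtain ⟨u, hu⟩ := exists_ne_zero hd
  have h1 : ∀ ξ, Mop p e ξ = ftau e • ξ := by
    intro ξ
    have h2 : Mop p e (Mop p e ξ - ftau e • ξ) = 0 := by
      rw [Mop_map_sub, Mop_map_smul, Mop_sq, h0]; simp
    exact sub_eq_zero.mp (he _ h2)
  have h2 := congrArg Prod.fst (h1 (u, 0))
  have h3 := congrArg Prod.snd (h1 (0, u))
  have hz1 : (op p).adj (fs e) 0 = 0 := by
    have := adj_smul_right (op p) (fs e) 0 0
    simpa using this
  have hz2 : p.adj (fs e) 0 = 0 := by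
    have := adj_smul_right p (fs e) 0 0
    simpa using this
  simp only [Mop, hz1, smul_zero, add_zero, Prod.smul_fst] at h2
  simp only [Mop, hz2, smul_zero, add_zero, Prod.smul_snd] at h3
  have h4 : fa e = ftau e := smul_left_injective ℝ hu h2
  have h5 : fb e = ftau e := smul_left_injective ℝ hu h3
  have h6 : ftau e = 0 := by unfold ftau at *; linarith
  have h7 := he (u, 0) (by rw [h1, h6, zero_smul])
  exact hu (congrArg Prod.fst h7)

lemma quad_Q0 (hd : 1 ≤ d) (p : NProd d) (e ν : N d →L[ℝ] ℝ) (S : T d →L[ℝ] T d)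
    (he : ∀ ξ, (∀ η, e (Q0 p ξ η) = 0) → ξ = 0)
    (hS : ∀ ξ η, e (Q0 p (S ξ) η) = ν (Q0 p ξ η)) :
    ∃ τ δ : ℝ, ∀ ξ, S (S ξ) = τ • S ξ - δ • ξ := by
  have he' : ∀ ξ, Mop p e ξ = 0 → ξ = 0 := by
    intro ξ h
    apply he
    intro η
    rw [← ip_Mop, h, ip_zero_left]
  have hinj : ∀ ξ η, Mop p e ξ = Mop p e η → ξ = η := by
    intro ξ η h
    apply sub_eq_zero.mp
    apply he'
    rw [Mop_map_sub, h, sub_self]
  have hMS : ∀ ξ, Mop p e (S ξ) = Mop p ν ξ := by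
    intro ξ
    apply ip_ext
    intro c
    rw [ip_Mop, ip_Mop, hS]
  have hD := fdel_ne_zero hd p e he'
  set D := fdel e with hDdef
  set c := fdel (ν + e) - fdel ν - fdel e with hc
  have h1 : ∀ ξ, D • S ξ = ftau e • Mop p ν ξ - Mop p e (Mop p ν ξ) := by
    intro ξ
    apply hinj
    rw [Mop_map_smul, hMS, Mop_map_sub, Mop_map_smul, Mop_sq]
    module
  refine ⟨c / D, fdel ν / D, ?_⟩
  intro ξ
  apply hinj
  rw [hMS, Mop_map_sub, Mop_map_smul, Mop_map_smul, hMS]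
  have h2 : D • Mop p ν (S ξ) = c • Mop p ν ξ - fdel ν • Mop p e ξ := by
    rw [← Mop_map_smul, h1, Mop_map_sub, Mop_map_smul]
    have h3 := Mop_polar p ν e (Mop p ν ξ)
    have h4 := Mop_sq p ν ξ
    rw [← hc] at h3
    have h5 : Mop p ν (Mop p e (Mop p ν ξ)) = ftau ν • Mop p e (Mop p ν ξ)
        + ftau e • Mop p ν (Mop p ν ξ) - c • Mop p ν ξ - Mop p e (Mop p ν (Mop p ν ξ)) := by
      rw [← h3]; abel
    rw [h5]
    have h6 : Mop p e (Mop p ν (Mop p ν ξ)) = ftau ν • Mop p e (Mop p ν ξ) - fdel ν • Mop p e ξ := by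
      rw [h4, Mop_map_sub, Mop_map_smul, Mop_map_smul]
    rw [h6]
    module
  have h3 : Mop p ν (S ξ) = D⁻¹ • (D • Mop p ν (S ξ)) := by
    rw [smul_smul, inv_mul_cancel₀ hD, one_smul]
  rw [h3, h2, smul_sub, smul_smul, smul_smul]
  congr 2 <;> ring

lemma quad_std (hd : 1 ≤ d) (Q : T d →L[ℝ] T d →L[ℝ] N d) (hQ : Std Q)
    (e ν : N d →L[ℝ] ℝ) (S : T d →L[ℝ] T d)
    (he : ∀ ξ, (∀ η, e (Q ξ η) = 0) → ξ = 0)
    (hS : ∀ ξ η, e (Q (S ξ) η) = ν (Q ξ η)) :
    ∃ τ δ : ℝ, ∀ ξ, S (S ξ) = τ • S ξ - δ • ξ := by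
  obtain ⟨p, A, B, hAB⟩ := hQ
  obtain ⟨τ, δ, h⟩ := quad_Q0 hd p (e.comp (A : N d →L[ℝ] N d)) (ν.comp (A : N d →L[ℝ] N d))
    ((B : T d →L[ℝ] T d).comp (S.comp (B.symm : T d →L[ℝ] T d)))
    (by
      intro ξ h
      have := he (B.symm ξ) (fun η => by
        rw [hAB]; simpa using h (B η))
      simpa using this)
    (by
      intro ξ η
      have := hS (B.symm ξ) (B.symm η)
      rw [hAB, hAB] at this
      simpa using this)
  refine ⟨τ, δ, ?_⟩
  intro ξ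
  have h1 := h (B ξ)
  simp only [ContinuousLinearMap.comp_apply, ContinuousLinearEquiv.coe_coe,
    ContinuousLinearEquiv.symm_apply_apply] at h1
  apply B.injective
  rw [h1]
  simp

end Pool.Agent.KP.H53
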